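import Pool.Agent.H53.CZ.Targets

/-!
# MP_f2da09_co: module BLD
-/

set_option autoImplicit false

namespace Pool.Agent.H77.CZBLD

open Finset Pool.Agent.H53.CZD

theorem run_append {n : ℕ} (l l' : List (Gate n)) (ψ : State n) :
    run (l ++ l') ψ = run l' (run l ψ) := by
  unfold run
  rw [List.foldl_append]

theorem cz_append {n : ℕ} (l l' : List (Gate n)) : czCount (l ++ l') = czCount l + czCount l' := by
  unfold czCount
  rw [List.countP_append]

/-- toggle the edges between `b` and `N` -/
def tg {n : ℕ} (G : SimpleGraph (Fin n)) (b : Fin n) (N : Finset (Fin n)) :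
    SimpleGraph (Fin n) where
  Adj u v := u ≠ v ∧ ¬ (G.Adj u v ↔ ((u = b ∧ v ∈ N) ∨ (v = b ∧ u ∈ N)))
  symm := ⟨by
    intro u v h
    refine ⟨h.1.symm, ?_⟩
    have h2 := h.2
    rw [G.adj_comm v u, or_comm (a := v = b ∧ u ∈ N)]
    exact h2⟩
  loopless := ⟨fun a h => h.1 rfl⟩

theorem toggles (h1 : TOG) {n : ℕ} (G : SimpleGraph (Fin n)) (b : Fin n) (N : Finset (Fin n))
    (hN : b ∉ N) : ∃ l : List (Gate n), czCount l = N.card ∧
      run l (graphState G) = graphState (tg G b N) := by
  classical
  induction N using Finset.induction_on with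
  | empty =>
    refine ⟨[], rfl, ?_⟩
    have : tg G b ∅ = G := by
      ext u v
      simp only [tg, Finset.notMem_empty, and_false, or_self, iff_false, not_not]
      exact ⟨fun h => h.2, fun h => ⟨h.ne, h⟩⟩
    rw [this]
    rfl
  | insert c N hc ih =>
    rw [Finset.mem_insert, not_or] at hN
    obtain ⟨l, hl1, hl2⟩ := ih hN.2
    refine ⟨l ++ [Gate.CZ b c hN.1], ?_, ?_⟩
    · rw [cz_append, hl1, Finset.card_insert_of_notMem hc]
      rfl
    · rw [run_append, hl2]
      refine h1 n (tg G b N) (tg G b (insert c N)) b c hN.1 ?_
      intro u v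
      simp only [tg, Finset.mem_insert]
      by_cases huv : u = v
      · simp [huv]
      · by_cases e1 : u = b
        · subst e1
          by_cases e2 : v = c
          · subst e2
            have : ¬ v = u := fun e => huv e.symm
            simp [huv, this, hc]
          · have : ¬ v = u := fun e => huv e.symm
            simp [huv, this, e2]
        · by_cases e3 : v = b
          · subst e3
            by_cases e2 : u = c
            · subst e2
              simp [huv, hc]
            · simp [huv, e2]
          · simp [huv, e1, e3]

/-- the edges inside `U` -/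
def ins {n : ℕ} (G : SimpleGraph (Fin n)) (U : Finset (Fin n)) : SimpleGraph (Fin n) where
  Adj u v := G.Adj u v ∧ u ∈ U ∧ v ∈ U
  symm := ⟨fun _ _ h => ⟨h.1.symm, h.2.2, h.2.1⟩⟩
  loopless := ⟨fun _ h => G.loopless.irrefl _ h.1⟩

/-- copy the neighbourhood of `a` to the isolated vertex `b` -/
def twn {n : ℕ} (G : SimpleGraph (Fin n)) (a b : Fin n) (hab : a ≠ b) (hb : ∀ x, ¬ G.Adj b x) :
    SimpleGraph (Fin n) where
  Adj x y := G.Adj x y ∨ (x = b ∧ G.Adj a y) ∨ (y = b ∧ G.Adj a x)
  symm := ⟨by
    intro x y h
    rcases h with h | h | h
    · exact Or.inl h.symm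
    · exact Or.inr (Or.inr h)
    · exact Or.inr (Or.inl h)⟩
  loopless := ⟨by
    intro x h
    rcases h with h | h | h
    · exact G.loopless.irrefl _ h
    · obtain ⟨rfl, h⟩ := h
      exact hb a h.symm
    · obtain ⟨rfl, h⟩ := h
      exact hb a h.symm⟩

theorem bld (h1 : TOG) (h2 : TWI) (h3 : PLUS) : BLD := by
  classical
  intro n k G hG
  have key : ∀ m : ℕ, ∀ U : Finset (Fin n), U.card = m → ∃ l : List (Gate n),
      run l (zeroState n) = graphState (ins G U) ∧ czCount l ≤ (k + 1) * m := by
    intro m
    induction m with
    | zero =>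
      intro U hU
      obtain ⟨l, hl1, hl2⟩ := h3 n
      refine ⟨l, ?_, by omega⟩
      rw [hl2]
      congr 1
      ext u v
      rw [Finset.card_eq_zero] at hU
      subst hU
      simp [ins]
    | succ m ih =>
      intro U hU
      have hne : U.Nonempty := by
        rw [← Finset.card_pos]; omega
      obtain ⟨b, hb, hcase⟩ := hG U hne
      obtain ⟨l, hl1, hl2⟩ := ih (U.erase b) (by rw [Finset.card_erase_of_mem hb, hU]; omega)
      rcases hcase with hcase | ⟨a, ha, hab, hnab, hcase⟩
      · obtain ⟨l', hl1', hl2'⟩ := toggles h1 (ins G (U.erase b)) b {x ∈ U | G.Adj b x} (by simp)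
        refine ⟨l ++ l', ?_, ?_⟩
        · rw [run_append, hl1, hl2']
          congr 1
          ext u v
          simp only [tg, ins, Finset.mem_filter, Finset.mem_erase]
          by_cases e1 : u = b
          · subst e1
            by_cases e2 : v = u
            · subst e2; simp
            · have e3 : ¬ u = v := fun e => e2 e.symm
              simp [e2, e3, hb]
              tauto
          · by_cases e2 : v = b
            · subst e2
              simp [e1, hb, G.adj_comm v u]
              tauto
            · simp [e1, e2]
              intro h _ _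
              exact h.ne
        · rw [cz_append, hl1']
          have := hcase
          nlinarith
      · have hiso : ∀ x, ¬ (ins G (U.erase b)).Adj b x := by
          intro x hx
          exact absurd hx.2.1 (Finset.notMem_erase b U)
        obtain ⟨l', hl1', hl2'⟩ := toggles h1 (twn (ins G (U.erase b)) a b hab hiso) b
          {x ∈ U | ¬ (G.Adj a x ↔ G.Adj b x)} (by simp [hnab])
        refine ⟨l ++ ([Gate.H a, Gate.CZ a b hab, Gate.H a] ++ l'), ?_, ?_⟩
        · rw [run_append, hl1, run_append,
            h2 n (ins G (U.erase b)) (twn (ins G (U.erase b)) a b hab hiso) a b hab hiso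
              (fun _ _ => Iff.rfl), hl2']
          congr 1
          ext u v
          simp only [tg, ins, twn, Finset.mem_filter, Finset.mem_erase]
          by_cases e1 : u = b
          · subst e1
            by_cases e2 : v = u
            · subst e2; simp
            · have e3 : ¬ u = v := fun e => e2 e.symm
              simp [e2, e3, hb, ha, hab]
              tauto
          · by_cases e2 : v = b
            · subst e2
              simp [e1, hb, ha, hab, G.adj_comm v u]
              tauto
            · simp [e1, e2]
              intro h _ _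
              exact h.ne
        · rw [cz_append, cz_append, hl1']
          have h5 : czCount [Gate.H a, Gate.CZ a b hab, Gate.H a] = 1 := rfl
          rw [h5]
          have := hcase
          nlinarith
  obtain ⟨l, hl1, hl2⟩ := key n Finset.univ (by simp)
  refine ⟨l, ⟨1, by simp, ?_⟩, hl2⟩
  rw [hl1]
  have : ins G Finset.univ = G := by
    ext u v
    simp [ins]
  rw [this]
  funext x
  rw [one_mul]

end Pool.Agent.H77.CZBLD
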