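import Pool.Agent.H53.CZ.Targets

/-!
# MP_f2da09_co: module TWI
-/

set_option autoImplicit false

namespace Pool.Agent.H77.CZTWI

open Finset Pool.Agent.H53.CZD

theorem sq2 : ((Real.sqrt 2 : ℝ) : ℂ)⁻¹ * ((Real.sqrt 2 : ℝ) : ℂ)⁻¹ = 1 / 2 := by
  rw [← mul_inv, ← Complex.ofReal_mul, Real.mul_self_sqrt (by norm_num)]
  norm_num

/-- the circuit `H a, CZ a b, H a` is a controlled negation -/
theorem run3 {n : ℕ} (a b : Fin n) (h : a ≠ b) (ψ : State n) (x : Fin n → Bool) :
    run [Gate.H a, Gate.CZ a b h, Gate.H a] ψ x = ψ (Function.update x a (xor (x a) (x b))) := by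
  have hb : b ≠ a := h.symm
  have e : ∀ (x : Fin n → Bool), run [Gate.H a, Gate.CZ a b h, Gate.H a] ψ x =
      ((Real.sqrt 2 : ℝ) : ℂ)⁻¹ * ((Real.sqrt 2 : ℝ) : ℂ)⁻¹ *
      ((ψ (Function.update x a false) + ψ (Function.update x a true)) +
        (if x a = true then -1 else 1) * ((if x b = true then -1 else 1) *
          (ψ (Function.update x a false) - ψ (Function.update x a true)))) := by
    intro x
    simp only [run, List.foldl_cons, List.foldl_nil, Gate.apply, Function.update_self,
      Function.update_idem, Function.update_of_ne hb]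
    cases ha : x a <;> cases hb' : x b <;> simp <;> ring
  rw [e, sq2]
  cases ha : x a <;> cases hb' : x b <;> simp <;> ring

theorem row {n : ℕ} (a : Fin n) (s : Fin n → Fin n → ℂ) (hs : ∀ u v, s u v = s v u) :
    ∏ p : Fin n × Fin n, (if p.1 < p.2 ∧ (p.1 = a ∨ p.2 = a) then s p.1 p.2 else 1) =
      ∏ t : Fin n, if t = a then 1 else s a t := by
  classical
  have e1 : ∀ p : Fin n × Fin n, (if p.1 < p.2 ∧ (p.1 = a ∨ p.2 = a) then s p.1 p.2 else 1) =
      (if p.1 = a then (if a < p.2 then s a p.2 else 1) else 1) *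
      (if p.2 = a then (if p.1 < a then s a p.1 else 1) else 1) := by
    rintro ⟨u, v⟩
    by_cases hu : u = a
    · subst hu
      by_cases hv : v = u
      · subst hv; simp
      · simp [hv]
    · by_cases hv : v = a
      · subst hv
        simp [hu, hs v u]
      · simp [hu, hv]
  rw [Finset.prod_congr rfl fun p _ => e1 p, Finset.prod_mul_distrib, Fintype.prod_prod_type,
    Fintype.prod_prod_type]
  have e2 : ∏ u : Fin n, ∏ v : Fin n, (if u = a then (if a < v then s a v else 1) else 1) =
      ∏ v : Fin n, (if a < v then s a v else 1) := by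
    rw [Finset.prod_comm]
    refine Finset.prod_congr rfl fun v _ => ?_
    rw [Finset.prod_ite_eq' Finset.univ a (fun _ => if a < v then s a v else 1)]
    simp
  have e3 : ∏ u : Fin n, ∏ v : Fin n, (if v = a then (if u < a then s a u else 1) else 1) =
      ∏ u : Fin n, (if u < a then s a u else 1) := by
    refine Finset.prod_congr rfl fun u _ => ?_
    rw [Finset.prod_ite_eq' Finset.univ a (fun _ => if u < a then s a u else 1)]
    simp
  rw [e2, e3, ← Finset.prod_mul_distrib]
  refine Finset.prod_congr rfl fun t _ => ?_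
  rcases lt_trichotomy t a with ht | ht | ht
  · simp [ht, ht.ne, not_lt.mpr ht.le]
  · simp [ht]
  · simp [ht, ht.ne', not_lt.mpr ht.le]

theorem twi : TWI := by
  classical
  intro n G G' a b h hb hG'
  funext x
  rw [run3]
  set y : Fin n → Bool := Function.update x a (xor (x a) (x b)) with hy
  have hya : y a = xor (x a) (x b) := by rw [hy, Function.update_self]
  have hyt : ∀ t, t ≠ a → y t = x t := fun t ht => by rw [hy, Function.update_of_ne ht]
  have hbs : ∀ t, ¬ G.Adj t b := fun t ht => hb t ht.symm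
  set c : Fin n × Fin n → ℂ := fun p =>
    if p.1 < p.2 ∧ ¬ (p.1 = a ∨ p.2 = a) ∧ G.Adj p.1 p.2 ∧ x p.1 = true ∧ x p.2 = true
      then (-1 : ℂ) else 1 with hc
  set sA : Fin n → Fin n → ℂ := fun u v =>
    if G.Adj u v ∧ y u = true ∧ y v = true then (-1 : ℂ) else 1 with hsA
  set sA' : Fin n → Fin n → ℂ := fun u v =>
    if G.Adj u v ∧ x u = true ∧ x v = true then (-1 : ℂ) else 1 with hsA'
  set sB : Fin n → Fin n → ℂ := fun u v =>
    if G'.Adj u v ∧ x u = true ∧ x v = true then (-1 : ℂ) else 1 with hsB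
  have symA : ∀ u v, sA u v = sA v u := by
    intro u v
    simp only [hsA, G.adj_comm u v, and_comm (a := y u = true)]
  have symA' : ∀ u v, sA' u v = sA' v u := by
    intro u v
    simp only [hsA', G.adj_comm u v, and_comm (a := x u = true)]
  have symB : ∀ u v, sB u v = sB v u := by
    intro u v
    simp only [hsB, G'.adj_comm u v, and_comm (a := x u = true)]
  have f1 : ∀ p : Fin n × Fin n,
      (if p.1 < p.2 ∧ G.Adj p.1 p.2 ∧ y p.1 = true ∧ y p.2 = true then (-1 : ℂ) else 1) =
      c p * (if p.1 < p.2 ∧ (p.1 = a ∨ p.2 = a) then sA p.1 p.2 else 1) := by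
    rintro ⟨u, v⟩
    simp only [hc, hsA]
    by_cases h1 : u < v
    · by_cases h2 : u = a ∨ v = a
      · simp only [h1, h2, true_and, not_true, false_and, if_false, if_true, one_mul]
      · have h3 := not_or.mp h2
        simp only [h1, h2, true_and, not_false_eq_true, if_false, mul_one, hyt u h3.1, hyt v h3.2]
    · simp [h1]
  have f2 : ∀ p : Fin n × Fin n,
      (if p.1 < p.2 ∧ G'.Adj p.1 p.2 ∧ x p.1 = true ∧ x p.2 = true then (-1 : ℂ) else 1) =
      c p * (if p.1 < p.2 ∧ (p.1 = a ∨ p.2 = a) then sA' p.1 p.2 else 1) *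
        (if p.1 < p.2 ∧ (p.1 = b ∨ p.2 = b) then sB p.1 p.2 else 1) := by
    rintro ⟨u, v⟩
    simp only [hc, hsA', hsB]
    by_cases h1 : u < v
    · by_cases h2 : u = b ∨ v = b
      · have h3 : ¬ G.Adj u v := by
          rcases h2 with h2 | h2
          · rw [h2]; exact hb v
          · rw [h2]; exact hbs u
        simp [h1, h2, h3]
      · have h3 : G'.Adj u v ↔ G.Adj u v := by
          rw [hG']
          rw [not_or] at h2
          simp [h2.1, h2.2]
        by_cases h4 : u = a ∨ v = a
        · simp [h1, h2, h3, h4]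
        · simp [h1, h2, h3, h4]
    · simp [h1]
  unfold graphState
  congr 1
  rw [Finset.prod_congr rfl fun p _ => f1 p, Finset.prod_congr rfl fun p _ => f2 p,
    Finset.prod_mul_distrib, Finset.prod_mul_distrib, Finset.prod_mul_distrib, row a sA symA,
    row a sA' symA', row b sB symB, mul_assoc]
  congr 1
  rw [← Finset.prod_mul_distrib]
  refine Finset.prod_congr rfl fun t _ => ?_
  simp only [hsA, hsA', hsB]
  have g1 : G'.Adj b t ↔ G.Adj a t ∨ (t = b ∧ G.Adj a b) := by
    rw [hG']
    simp [hb]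
  have g2 : ¬ G.Adj a b := hbs a
  by_cases ht : t = a
  · subst ht
    simp [g1, h]
  · rw [hyt t ht, hya, if_neg ht, if_neg ht]
    by_cases ht' : t = b
    · subst ht'
      simp [g2]
    · rw [if_neg ht']
      simp only [g1, ht', false_and, or_false]
      by_cases h5 : G.Adj a t
      · cases x a <;> cases x b <;> cases x t <;> simp [h5]
      · simp [h5]

end Pool.Agent.H77.CZTWI
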